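import Pool.Agent.R268.Gur.Basis

/-!
# Levels and weak compactness in the space attached to a bookkeeping function
-/

open Set Filter Topology
open scoped ENNReal

namespace Pool.Agent.R278.GurWCG

open Pool.Agent.R268.Gur

variable {W : Type} [LinearOrder W] [WellFoundedLT W] (B : Book W)

/-- The level of an index. -/
noncomputable def level : W → ℕ :=
  open Classical in
  (wellFounded_lt (α := W)).fix (fun γ rec =>
    (B.T γ).support.sup (fun β => if h : β < γ then rec β h + 1 else 0))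

theorem level_eq (γ : W) : level B γ = (B.T γ).support.sup (fun β => level B β + 1) := by
  unfold level
  rw [WellFounded.fix_eq]
  apply Finset.sup_congr rfl
  intro β hβ
  rw [dif_pos (B.lt γ β (Finsupp.mem_support_iff.1 hβ))]

theorem level_lt {γ β : W} (h : B.T γ β ≠ 0) : level B β < level B γ := by
  rw [level_eq B γ]
  have h1 : level B β + 1 ≤ (B.T γ).support.sup (fun β => level B β + 1) :=
    Finset.le_sup (f := fun β => level B β + 1) (Finsupp.mem_support_iff.2 h)
  omega

/-- Combinations of vectors of the same level have the sup norm. -/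
theorem norm_combo_le (n : ℕ) (F : Finset W) (hF : ∀ α ∈ F, level B α = n) (c : W → ℝ) {C : ℝ}
    (hC : 0 ≤ C) (hc : ∀ α ∈ F, |c α| ≤ C) : ‖∑ α ∈ F, c α • vecX B α‖ ≤ C := by
  classical
  set z : XS B := ∑ α ∈ F, c α • vecX B α with hz
  have hzf : (((z : XS B) : Linf W) : W → ℝ) = ∑ α ∈ F, c α • vec B.T α := by
    rw [hz, Submodule.coe_sum, lp.coeFn_sum]
    rfl
  have hd : ∀ γ, dfct B.T ((z : XS B) : Linf W) γ = if γ ∈ F then c γ else 0 := by
    intro γ
    rw [hzf, map_sum, Finset.sum_apply]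
    by_cases hγ : γ ∈ F
    · rw [if_pos hγ, Finset.sum_eq_single γ]
      · rw [map_smul, dfct_vec B.T B.lt, Pi.smul_apply, Pi.single_eq_same, smul_eq_mul, mul_one]
      · intro β _ hβ
        rw [map_smul, dfct_vec B.T B.lt, Pi.smul_apply, Pi.single_eq_of_ne hβ.symm, smul_zero]
      · intro h
        exact absurd hγ h
    · rw [if_neg hγ]
      apply Finset.sum_eq_zero
      intro β hβ
      rw [map_smul, dfct_vec B.T B.lt, Pi.smul_apply, Pi.single_eq_of_ne, smul_zero]
      rintro rfl
      exact hγ hβ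
  -- low level: the value vanishes
  have hlow : ∀ γ, level B γ < n → ((z : XS B) : Linf W) γ = 0 := by
    intro γ
    induction γ using WellFoundedLT.induction with
    | _ γ ih =>
      intro hγ
      have h1 := hd γ
      rw [if_neg (fun h => by have := hF γ h; omega), dfct_apply, sub_eq_zero] at h1
      rw [h1]
      apply Finset.sum_eq_zero
      intro β hβ
      have h2 := Finsupp.mem_support_iff.1 hβ
      rw [ih β (B.lt γ β h2) (lt_trans (level_lt B h2) hγ), mul_zero]
  apply XS_norm_le B hC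
  intro γ
  induction γ using WellFoundedLT.induction with
  | _ γ ih =>
    have h1 := hd γ
    rw [dfct_apply, sub_eq_iff_eq_add] at h1
    by_cases hγ : γ ∈ F
    · rw [if_pos hγ] at h1
      have h2 : ∑ β ∈ (B.T γ).support, B.T γ β * ((z : XS B) : Linf W) β = 0 := by
        apply Finset.sum_eq_zero
        intro β hβ
        have h3 := Finsupp.mem_support_iff.1 hβ
        rw [hlow β (by have := level_lt B h3; rw [hF γ hγ] at this; exact this), mul_zero]
      rw [h1, h2, add_zero]
      exact hc γ hγ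
    · rw [if_neg hγ, zero_add] at h1
      rw [h1]
      calc |∑ β ∈ (B.T γ).support, B.T γ β * ((z : XS B) : Linf W) β|
          ≤ ∑ β ∈ (B.T γ).support, |B.T γ β * ((z : XS B) : Linf W) β| :=
            Finset.abs_sum_le_sum_abs _ _
        _ ≤ ∑ β ∈ (B.T γ).support, |B.T γ β| * C := by
            apply Finset.sum_le_sum
            intro β hβ
            rw [abs_mul]
            exact mul_le_mul_of_nonneg_left (ih β (B.lt γ β (Finsupp.mem_support_iff.1 hβ)))
              (abs_nonneg _)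
        _ = (∑ β ∈ (B.T γ).support, |B.T γ β|) * C := by rw [Finset.sum_mul]
        _ ≤ 1 * C := mul_le_mul_of_nonneg_right (B.sum_le γ) hC
        _ = C := one_mul C

/-- A functional is large on only finitely many basis vectors of a given level. -/
theorem finite_large (f : XS B →L[ℝ] ℝ) (n : ℕ) {ε : ℝ} (hε : 0 < ε) :
    {α : W | level B α = n ∧ ε ≤ |f (vecX B α)|}.Finite := by
  classical
  by_contra hinf
  obtain ⟨N, hN⟩ := exists_nat_gt (‖f‖ / ε)
  obtain ⟨F, hFs, hFc⟩ := Set.Infinite.exists_subset_card_eq hinf N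
  have h1 := norm_combo_le B n F (fun α hα => (hFs hα).1)
    (fun α => (SignType.sign (f (vecX B α)) : ℝ)) zero_le_one (by
      intro α _
      rcases SignType.trichotomy (SignType.sign (f (vecX B α))) with h | h | h <;>
        rw [h] <;> simp)
  have h2 : f (∑ α ∈ F, (SignType.sign (f (vecX B α)) : ℝ) • vecX B α)
      = ∑ α ∈ F, |f (vecX B α)| := by
    rw [map_sum]
    apply Finset.sum_congr rfl
    intro α _
    rw [map_smul, smul_eq_mul, sign_mul_self]
  have h3 : (N : ℝ) * ε ≤ ∑ α ∈ F, |f (vecX B α)| := by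
    rw [← hFc, ← nsmul_eq_mul]
    exact Finset.card_nsmul_le_sum _ _ _ (fun α hα => (hFs hα).2)
  have h4 : ∑ α ∈ F, |f (vecX B α)| ≤ ‖f‖ := by
    rw [← h2]
    calc f (∑ α ∈ F, (SignType.sign (f (vecX B α)) : ℝ) • vecX B α)
        ≤ ‖f (∑ α ∈ F, (SignType.sign (f (vecX B α)) : ℝ) • vecX B α)‖ := le_abs_self _
      _ ≤ ‖f‖ * ‖∑ α ∈ F, (SignType.sign (f (vecX B α)) : ℝ) • vecX B α‖ := f.le_opNorm _
      _ ≤ ‖f‖ * 1 := mul_le_mul_of_nonneg_left h1 f.opNorm_nonneg
      _ = ‖f‖ := mul_one _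
  rw [div_lt_iff₀ hε] at hN
  linarith

theorem norm_vecX_le (α : W) : ‖vecX B α‖ ≤ 1 := by
  have h := norm_combo_le B (level B α) {α} (by simp) (fun _ => (1 : ℝ)) zero_le_one (by simp)
  simpa using h

/-- The scaled basis vectors. -/
noncomputable def sv (α : W) : XS B := ((1 / 2 : ℝ) ^ level B α) • vecX B α

theorem tendsto_sv (f : XS B →L[ℝ] ℝ) :
    Tendsto (fun α => f (sv B α)) cofinite (𝓝 0) := by
  rw [Metric.tendsto_nhds]
  intro ε hε
  rw [Filter.eventually_cofinite]
  obtain ⟨N, hN⟩ := exists_pow_lt_of_lt_one (show 0 < ε / (‖f‖ + 1) by positivity)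
    (show (1 / 2 : ℝ) < 1 by norm_num)
  have hfin : (⋃ n ∈ Finset.range N, {α : W | level B α = n ∧ ε ≤ |f (vecX B α)|}).Finite :=
    Set.Finite.biUnion (Finset.finite_toSet _) (fun n _ => finite_large B f n hε)
  refine hfin.subset ?_
  intro α hα
  simp only [Set.mem_ofPred_eq, not_lt, dist_zero_right, Real.norm_eq_abs] at hα
  have h1 : |f (sv B α)| = (1 / 2 : ℝ) ^ level B α * |f (vecX B α)| := by
    rw [sv, map_smul, smul_eq_mul, abs_mul, abs_of_nonneg (by positivity)]
  have h2 : (1 / 2 : ℝ) ^ level B α ≤ 1 := pow_le_one₀ (by norm_num) (by norm_num)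
  have h3 : |f (vecX B α)| ≤ ‖f‖ := by
    calc |f (vecX B α)| ≤ ‖f‖ * ‖vecX B α‖ := f.le_opNorm _
      _ ≤ ‖f‖ * 1 := mul_le_mul_of_nonneg_left (norm_vecX_le B α) f.opNorm_nonneg
      _ = ‖f‖ := mul_one _
  simp only [Set.mem_iUnion, Finset.mem_range, Set.mem_ofPred_eq]
  refine ⟨level B α, ?_, rfl, ?_⟩
  · by_contra hle
    rw [not_lt] at hle
    have h4 : (1 / 2 : ℝ) ^ level B α ≤ (1 / 2 : ℝ) ^ N :=
      pow_le_pow_of_le_one (by norm_num) (by norm_num) hle
    have h5 : |f (sv B α)| < ε := by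
      rw [h1]
      calc (1 / 2 : ℝ) ^ level B α * |f (vecX B α)| ≤ (1 / 2 : ℝ) ^ N * (‖f‖ + 1) :=
            mul_le_mul h4 (by linarith) (abs_nonneg _) (by positivity)
        _ < ε / (‖f‖ + 1) * (‖f‖ + 1) := mul_lt_mul_of_pos_right hN (by positivity)
        _ = ε := by field_simp
    linarith
  · rw [h1] at hα
    refine hα.trans ?_
    calc (1 / 2 : ℝ) ^ level B α * |f (vecX B α)| ≤ 1 * |f (vecX B α)| :=
          mul_le_mul_of_nonneg_right h2 (abs_nonneg _)
      _ = |f (vecX B α)| := one_mul _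

theorem tendsto_sv_weak :
    Tendsto (fun α => toWeakSpace ℝ (XS B) (sv B α)) cofinite (𝓝 0) := by
  have h : (𝓝 (0 : WeakSpace ℝ (XS B))) = Filter.comap
      (fun (x : WeakSpace ℝ (XS B)) (f : XS B →L[ℝ] ℝ) => f ((toWeakSpace ℝ (XS B)).symm x))
      (𝓝 (fun (f : XS B →L[ℝ] ℝ) => f 0)) := by
    exact nhds_induced _ _
  rw [h, tendsto_comap_iff, tendsto_pi_nhds]
  intro f
  have h1 := tendsto_sv B f
  simp only [map_zero]
  exact h1

/-- The compact set. -/
theorem isCompact_weak : IsCompact (toWeakSpace ℝ (XS B) '' insert 0 (Set.range (sv B))) := by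
  have h := (tendsto_sv_weak B).isCompact_insert_range_of_cofinite
  rw [Set.image_insert_eq, (toWeakSpace ℝ (XS B)).map_zero, ← Set.range_comp]
  exact h

theorem dense_span_compact :
    Dense ((Submodule.span ℝ (insert 0 (Set.range (sv B))) : Submodule ℝ (XS B)) :
      Set (XS B)) := by
  refine (dense_span_vecX B).mono ?_
  apply Submodule.span_le.2
  rintro _ ⟨α, rfl⟩
  have h1 : vecX B α = ((2 : ℝ) ^ level B α) • sv B α := by
    rw [sv, smul_smul, ← mul_pow]
    norm_num
  rw [h1]
  exact Submodule.smul_mem _ _ (Submodule.subset_span (Or.inr ⟨α, rfl⟩))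

theorem countable_support (f : XS B →L[ℝ] ℝ) : {α : W | f (vecX B α) ≠ 0}.Countable := by
  have h : {α : W | f (vecX B α) ≠ 0} ⊆ ⋃ n : ℕ, ⋃ k : ℕ,
      {α : W | level B α = n ∧ 1 / ((k : ℝ) + 1) ≤ |f (vecX B α)|} := by
    intro α hα
    obtain ⟨k, hk⟩ := exists_nat_one_div_lt (abs_pos.2 hα)
    simp only [Set.mem_iUnion]
    exact ⟨level B α, k, rfl, hk.le⟩
  refine Set.Countable.mono h ?_
  apply Set.countable_iUnion
  intro n
  apply Set.countable_iUnion
  intro k
  exact (finite_large B f n (by positivity)).countable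

theorem eq_zero_of_vecX {f : XS B →L[ℝ] ℝ} (h : ∀ α, f (vecX B α) = 0) : f = 0 := by
  have h1 : (f : XS B → ℝ) = fun _ => 0 := by
    apply Continuous.ext_on (dense_span_vecX B) f.continuous continuous_const
    intro x hx
    have h2 : Submodule.span ℝ (Set.range (vecX B)) ≤ LinearMap.ker f.toLinearMap := by
      rw [Submodule.span_le]
      rintro _ ⟨α, rfl⟩
      exact h α
    exact h2 hx
  ext x
  exact congrFun h1 x

end Pool.Agent.R278.GurWCG
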